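import Mathlib

set_option autoImplicit false

/-!
# A Hausdorff space `X`, a space `Y` and a closed image `Z` of `Y` with `X × Y` paracompact and
`X × Z` not paracompact.  Basic definitions and combinatorics.
-/

namespace Pool.Agent.H866R2.CM

open Set

/-- Neighbourhood assignment form of ultraparacompactness. -/
def UPC (Y : Type) [TopologicalSpace Y] : Prop :=
  ∀ c : Y → Set Y, (∀ y, IsOpen (c y) ∧ y ∈ c y) →
    ∃ r : Y → Y, IsLocallyConstant r ∧ ∀ y, y ∈ c (r y)

theorem UPC.paracompact {Y : Type} [TopologicalSpace Y] (h : UPC Y) : ParacompactSpace Y := by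
  refine ⟨fun α s ho hc => ?_⟩
  have hx : ∀ y, ∃ a, y ∈ s a := by
    intro y
    have : y ∈ ⋃ a, s a := by rw [hc]; trivial
    simpa using this
  choose g hg using hx
  obtain ⟨r, hr, hr2⟩ := h (fun y => s (g y)) (fun y => ⟨ho _, hg y⟩)
  refine ⟨Y, fun z => r ⁻¹' {z}, fun z => hr _, ?_, ?_, fun z => ⟨g z, ?_⟩⟩
  · ext y; simp
  · intro y
    refine ⟨r ⁻¹' {r y}, (hr _).mem_nhds rfl, ?_⟩
    refine (Set.finite_singleton (r y)).subset ?_
    rintro z ⟨w, hw1, hw2⟩
    have h1 : r w = z := hw1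
    have h2 : r w = r y := hw2
    simp [← h1, h2]
  · rintro y hy
    have h1 : r y = z := hy
    rw [← h1]; exact hr2 y

theorem UPC.t2 {Y : Type} [TopologicalSpace Y] (h : UPC Y) (h1 : ∀ y : Y, IsOpen ({y}ᶜ : Set Y)) :
    T2Space Y := by
  classical
  refine ⟨fun y y' hne => ?_⟩
  obtain ⟨r, hr, hr2⟩ := h (fun z => if z = y' then {y}ᶜ else {y'}ᶜ) (fun z => by
    by_cases hz : z = y'
    · subst hz
      simp only [if_true]
      exact ⟨h1 _, fun h => hne h.symm⟩
    · simp only [hz, if_false]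
      exact ⟨h1 _, fun h => hz h⟩)
  have e1 : r y ≠ y' := by
    intro he
    have := hr2 y
    rw [he, if_pos rfl] at this
    exact this rfl
  have e2 : r y' = y' := by
    by_contra he
    have := hr2 y'
    rw [if_neg he] at this
    exact this rfl
  refine ⟨r ⁻¹' {r y}, r ⁻¹' {r y'}, hr _, hr _, rfl, rfl, ?_⟩
  rw [Set.disjoint_left]
  intro z hz hz'
  have a1 : r z = r y := hz
  have a2 : r z = r y' := hz'
  exact e1 (by rw [← a1, a2, e2])

/-- Clopen interpolation. -/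
theorem UPC.clopen {Y : Type} [TopologicalSpace Y] (h : UPC Y) (K R : Set Y) (hK : IsClosed K)
    (hR : IsOpen R) (hKR : K ⊆ R) : ∃ Q, IsClopen Q ∧ K ⊆ Q ∧ Q ⊆ R := by
  classical
  obtain ⟨r, hr, hr2⟩ := h (fun z => if z ∈ K then R else Kᶜ) (fun z => by
    by_cases hz : z ∈ K
    · simp only [hz, if_true]
      exact ⟨hR, hKR hz⟩
    · simp only [hz, if_false]
      exact ⟨hK.isOpen_compl, hz⟩)
  refine ⟨r ⁻¹' K, ⟨⟨hr Kᶜ⟩, hr K⟩, ?_, ?_⟩
  · intro y hy
    by_contra hn
    have hn' : r y ∉ K := hn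
    have := hr2 y
    rw [if_neg hn'] at this
    exact this hy
  · intro y hy
    have := hr2 y
    rw [if_pos (show r y ∈ K from hy)] at this
    exact this

variable (H : Type)

/-- nodes of the tree -/
abbrev Nd := List (H × ℕ)
/-- branches of the tree -/
abbrev Br := ℕ → H × ℕ

/-- nodes and branches -/
inductive XX
  | nd (a : Nd H) : XX
  | br (t : Br H) : XX

variable {H}

/-- the first `m` letters of a branch -/
def res (t : Br H) (m : ℕ) : Nd H := (List.range m).map t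

@[simp] theorem length_res (t : Br H) (m : ℕ) : (res t m).length = m := by simp [res]

theorem res_succ (t : Br H) (m : ℕ) : res t (m + 1) = res t m ++ [t m] := by
  simp [res, List.range_succ]

theorem getElem?_res (t : Br H) (m i : ℕ) (h : i < m) : (res t m)[i]? = some (t i) := by
  simp [res, h]

namespace XX

/-- the `m`-th letter -/
def get : XX H → ℕ → Option (H × ℕ)
  | nd a, m => a[m]?
  | br t, m => some (t m)

/-- the first `m` letters -/
def tk : XX H → ℕ → Nd H
  | nd a, m => a.take m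
  | br t, m => res t m

end XX

open XX

/-- `s` is an initial segment of `x` -/
def Ext (s : Nd H) (x : XX H) : Prop := ∀ m, m < s.length → s[m]? = x.get m

theorem ext_self (a : Nd H) : Ext a (nd a) := fun _ _ => rfl

theorem Ext.length_le {s a : Nd H} (h : Ext s (nd a)) : s.length ≤ a.length := by
  by_contra hlt
  push Not at hlt
  have := h a.length hlt
  rw [List.getElem?_eq_getElem hlt] at this
  simp [XX.get] at this

theorem Ext.trans {s s' : Nd H} {x : XX H} (h : Ext s (nd s')) (h' : Ext s' x) : Ext s x := by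
  intro m hm
  rw [h m hm]
  exact h' m (lt_of_lt_of_le hm h.length_le)

theorem Ext.of_le {s s' : Nd H} {x : XX H} (h : Ext s x) (h' : Ext s' x)
    (hl : s.length ≤ s'.length) : Ext s (nd s') := by
  intro m hm
  rw [h m hm, ← h' m (lt_of_lt_of_le hm hl)]
  rfl

theorem Ext.antisymm {s s' : Nd H} (h : Ext s (nd s')) (hl : s'.length ≤ s.length) : s = s' := by
  apply List.ext_getElem?
  intro m
  by_cases hm : m < s.length
  · exact h m hm
  · push Not at hm
    rw [List.getElem?_eq_none hm, List.getElem?_eq_none (hl.trans hm)]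

theorem ext_append {s : Nd H} {g : H × ℕ} {x : XX H} :
    Ext (s ++ [g]) x ↔ Ext s x ∧ x.get s.length = some g := by
  constructor
  · intro h
    refine ⟨fun m hm => ?_, ?_⟩
    · have := h m (by simp; omega)
      rwa [List.getElem?_append_left hm] at this
    · have := h s.length (by simp)
      rw [← this]; simp
  · rintro ⟨h1, h2⟩ m hm
    simp only [List.length_append, List.length_cons, List.length_nil] at hm
    rcases Nat.lt_succ_iff_lt_or_eq.1 hm with h | h
    · rw [List.getElem?_append_left h]; exact h1 m h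
    · subst h; rw [h2]; simp

theorem ext_tk (x : XX H) (m : ℕ) : Ext (x.tk m) x := by
  intro i hi
  cases x with
  | nd a =>
    simp only [XX.tk, XX.get] at *
    rw [List.getElem?_take]
    simp at hi
    simp [hi]
  | br t =>
    simp only [XX.tk, XX.get] at *
    simp at hi
    exact getElem?_res t m i hi

theorem Ext.tk_eq {s : Nd H} {x : XX H} (h : Ext s x) : x.tk s.length = s := by
  have h1 : Ext (x.tk s.length) x := ext_tk x _
  have hl : (x.tk s.length).length ≤ s.length := by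
    cases x <;> simp [XX.tk]
  have hl2 : s.length ≤ (x.tk s.length).length := by
    cases x with
    | nd a => simp [XX.tk, h.length_le]
    | br t => simp [XX.tk]
  exact (h1.of_le h hl).antisymm hl2

theorem ext_br {s : Nd H} {t : Br H} : Ext s (br t) ↔ res t s.length = s := by
  constructor
  · intro h; exact h.tk_eq
  · intro h
    have := ext_tk (br t) s.length
    rwa [show (br t).tk s.length = s from h] at this

theorem ext_res (t : Br H) (m : ℕ) : Ext (res t m) (br t) := ext_tk (br t) m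

/-- the branches that follow the choice function `σ` above `a` -/
def C (a : Nd H) (σ : Nd H → H) : Set (Br H) :=
  {t | Ext a (br t) ∧ ∀ m, a.length ≤ m → (t m).1 = σ (res t m)}

/-- the branches bounded by `k` -/
def Lk (k : Nd H → H → ℕ) : Set (Br H) := {t | ∀ m, (t m).2 < k (res t m) (t m).1}

variable (H)

/-- the points of the space `Y` -/
inductive YY
  | v (a : Nd H) (h : H) : YY
  | y (a : Nd H) (σ : Nd H → H) : YY
  | b (t : Br H) : YY
  | p (a : Nd H) (σ : Nd H → H) (t : Br H) : YY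

/-- the points of the space `Z` -/
inductive ZZ
  | v (a : Nd H) (h : H) : ZZ
  | z (a : Nd H) : ZZ
  | b (t : Br H) : ZZ
  | p (a : Nd H) (σ : Nd H → H) (t : Br H) : ZZ

variable {H}

/-- the location of a point of `Y` in the tree -/
def loc : YY H → XX H
  | .v a _ => nd a
  | .y a _ => nd a
  | .b t => br t
  | .p a _ _ => nd a

/-- the map identifying all `y a σ` for fixed `a` -/
def ff : YY H → ZZ H
  | .v a h => .v a h
  | .y a _ => .z a
  | .b t => .b t
  | .p a σ t => .p a σ t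

instance : TopologicalSpace (XX H) where
  IsOpen U := ∀ a, nd a ∈ U → ∃ F : Set H, F.Countable ∧
    ∀ h ∉ F, ∀ j x, Ext (a ++ [(h, j)]) x → x ∈ U
  isOpen_univ := fun a _ => ⟨∅, countable_empty, fun _ _ _ _ _ => trivial⟩
  isOpen_inter := by
    rintro U V hU hV a ⟨h1, h2⟩
    obtain ⟨F, hF, hF2⟩ := hU a h1
    obtain ⟨G, hG, hG2⟩ := hV a h2
    refine ⟨F ∪ G, hF.union hG, fun h hh j x hx => ⟨hF2 h (fun h' => hh (Or.inl h')) j x hx,
      hG2 h (fun h' => hh (Or.inr h')) j x hx⟩⟩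
  isOpen_sUnion := by
    rintro S hS a ⟨U, hU, ha⟩
    obtain ⟨F, hF, hF2⟩ := hS U hU a ha
    exact ⟨F, hF, fun h hh j x hx => ⟨U, hU, hF2 h hh j x hx⟩⟩

theorem isOpen_XX {U : Set (XX H)} : IsOpen U ↔ ∀ a, nd a ∈ U → ∃ F : Set H, F.Countable ∧
    ∀ h ∉ F, ∀ j x, Ext (a ++ [(h, j)]) x → x ∈ U := Iff.rfl

instance : TopologicalSpace (YY H) where
  IsOpen U := (∀ a h, .v a h ∈ U → ∃ k, ∀ j ≥ k, ∀ w, Ext (a ++ [(h, j)]) (loc w) → w ∈ U) ∧
    (∀ a σ, .y a σ ∈ U → ∃ K : Set (Nd H → H → ℕ), K.Countable ∧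
      ∀ t ∈ C a σ, (∀ k ∈ K, t ∉ Lk k) → .p a σ t ∈ U) ∧
    (∀ t, .b t ∈ U → ∃ n, ∀ a σ, t ∈ C a σ → n ≤ a.length → .p a σ t ∈ U)
  isOpen_univ := ⟨fun _ _ _ => ⟨0, fun _ _ _ _ => trivial⟩,
    fun _ _ _ => ⟨∅, countable_empty, fun _ _ _ => trivial⟩, fun _ _ => ⟨0, fun _ _ _ _ => trivial⟩⟩
  isOpen_inter := by
    rintro U V ⟨hU1, hU2, hU3⟩ ⟨hV1, hV2, hV3⟩
    refine ⟨?_, ?_, ?_⟩
    · rintro a h ⟨h1, h2⟩
      obtain ⟨k, hk⟩ := hU1 a h h1
      obtain ⟨l, hl⟩ := hV1 a h h2
      exact ⟨max k l, fun j hj w hw => ⟨hk j (le_trans (le_max_left _ _) hj) w hw,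
        hl j (le_trans (le_max_right _ _) hj) w hw⟩⟩
    · rintro a σ ⟨h1, h2⟩
      obtain ⟨K, hK, hK2⟩ := hU2 a σ h1
      obtain ⟨L, hL, hL2⟩ := hV2 a σ h2
      exact ⟨K ∪ L, hK.union hL, fun t ht htk => ⟨hK2 t ht (fun k hk => htk k (Or.inl hk)),
        hL2 t ht (fun k hk => htk k (Or.inr hk))⟩⟩
    · rintro t ⟨h1, h2⟩
      obtain ⟨k, hk⟩ := hU3 t h1
      obtain ⟨l, hl⟩ := hV3 t h2
      exact ⟨max k l, fun a σ ht hj => ⟨hk a σ ht (le_trans (le_max_left _ _) hj),
        hl a σ ht (le_trans (le_max_right _ _) hj)⟩⟩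
  isOpen_sUnion := by
    rintro S hS
    refine ⟨?_, ?_, ?_⟩
    · rintro a h ⟨U, hU, hm⟩
      obtain ⟨k, hk⟩ := (hS U hU).1 a h hm
      exact ⟨k, fun j hj w hw => ⟨U, hU, hk j hj w hw⟩⟩
    · rintro a σ ⟨U, hU, hm⟩
      obtain ⟨k, hk, hk2⟩ := (hS U hU).2.1 a σ hm
      exact ⟨k, hk, fun t ht htk => ⟨U, hU, hk2 t ht htk⟩⟩
    · rintro t ⟨U, hU, hm⟩
      obtain ⟨k, hk⟩ := (hS U hU).2.2 t hm
      exact ⟨k, fun a σ ht hj => ⟨U, hU, hk a σ ht hj⟩⟩

theorem isOpen_YY {U : Set (YY H)} : IsOpen U ↔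
    (∀ a h, .v a h ∈ U → ∃ k, ∀ j ≥ k, ∀ w, Ext (a ++ [(h, j)]) (loc w) → w ∈ U) ∧
    (∀ a σ, .y a σ ∈ U → ∃ K : Set (Nd H → H → ℕ), K.Countable ∧
      ∀ t ∈ C a σ, (∀ k ∈ K, t ∉ Lk k) → .p a σ t ∈ U) ∧
    (∀ t, .b t ∈ U → ∃ n, ∀ a σ, t ∈ C a σ → n ≤ a.length → .p a σ t ∈ U) := Iff.rfl

instance : TopologicalSpace (ZZ H) := TopologicalSpace.coinduced ff inferInstance

theorem isOpen_ZZ {U : Set (ZZ H)} : IsOpen U ↔ IsOpen (ff ⁻¹' U) := Iff.rfl

theorem continuous_ff : Continuous (ff : YY H → ZZ H) := continuous_coinduced_rng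

theorem surjective_ff [Nonempty H] : Function.Surjective (ff : YY H → ZZ H) := by
  rintro (⟨a, h⟩ | a | t | ⟨a, σ, t⟩)
  · exact ⟨.v a h, rfl⟩
  · exact ⟨.y a (fun _ => Classical.arbitrary H), rfl⟩
  · exact ⟨.b t, rfl⟩
  · exact ⟨.p a σ t, rfl⟩

theorem ff_eq {w w' : YY H} (h : ff w = ff w') : w = w' ∨ ∃ a σ σ', w = .y a σ ∧ w' = .y a σ' := by
  cases w <;> cases w' <;> simp_all [ff]

theorem closed_ff : IsClosedMap (ff : YY H → ZZ H) := by
  intro D hD
  rw [← isOpen_compl_iff, isOpen_ZZ, isOpen_YY]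
  have hD' := isOpen_YY.1 hD.isOpen_compl
  refine ⟨?_, ?_, ?_⟩
  · intro a h hm
    obtain ⟨k, hk⟩ := hD'.1 a h (fun hd => hm ⟨_, hd, rfl⟩)
    refine ⟨k, fun j hj w hw => ?_⟩
    rintro ⟨d, hd, hdw⟩
    rcases ff_eq hdw with rfl | ⟨a', σ, σ', rfl, rfl⟩
    · exact hk j hj _ hw hd
    · exact hk j hj (.y a' σ) hw hd
  · intro a σ hm
    obtain ⟨K, hK, hK2⟩ := hD'.2.1 a σ (fun hd => hm ⟨_, hd, rfl⟩)
    refine ⟨K, hK, fun t ht htk => ?_⟩
    rintro ⟨d, hd, hdw⟩
    rcases ff_eq hdw with rfl | ⟨a', σ, σ', rfl, h⟩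
    · exact hK2 t ht htk hd
    · cases h
  · intro t hm
    obtain ⟨k, hk⟩ := hD'.2.2 t (fun hd => hm ⟨_, hd, rfl⟩)
    refine ⟨k, fun a σ ht hj => ?_⟩
    rintro ⟨d, hd, hdw⟩
    rcases ff_eq hdw with rfl | ⟨a', σ, σ', rfl, h⟩
    · exact hk a σ ht hj hd
    · cases h

/-- cones are open -/
theorem isOpen_cone_XX (s : Nd H) : IsOpen {x : XX H | Ext s x} := by
  rw [isOpen_XX]
  intro a ha
  exact ⟨∅, countable_empty, fun h _ j x hx => ha.trans (ext_append.1 hx).1⟩

theorem isOpen_cone_YY (s : Nd H) : IsOpen {w : YY H | Ext s (loc w)} := by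
  rw [isOpen_YY]
  refine ⟨?_, ?_, ?_⟩
  · intro a h ha
    exact ⟨0, fun j _ w hw => ha.trans (ext_append.1 hw).1⟩
  · intro a σ ha
    exact ⟨∅, countable_empty, fun t _ _ => ha⟩
  · intro t ha
    refine ⟨s.length, fun a σ ht hj => ?_⟩
    exact Ext.of_le ha ht.1 hj

theorem isOpen_br (t : Br H) : IsOpen ({br t} : Set (XX H)) := by
  rw [isOpen_XX]
  intro a ha
  simp at ha

theorem isOpen_p (a : Nd H) (σ : Nd H → H) (t : Br H) : IsOpen ({.p a σ t} : Set (YY H)) := by
  rw [isOpen_YY]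
  refine ⟨?_, ?_, ?_⟩ <;> intros <;> simp_all

/-- points of `Y` are closed -/
theorem compl_open_YY (w : YY H) : IsOpen ({w}ᶜ : Set (YY H)) := by
  classical
  rw [isOpen_YY]
  refine ⟨?_, ?_, ?_⟩
  · intro a h _
    refine ⟨(((loc w).get a.length).elim 0 (fun g => g.2 + 1)), fun j hj w' hw' => ?_⟩
    rintro rfl
    have := (ext_append.1 hw').2
    rw [this] at hj
    simp at hj
  · intro a σ _
    cases w with
    | p a' σ' t' =>
      refine ⟨{fun s h => (t' s.length).2 + 1}, countable_singleton _, fun t ht hk => ?_⟩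
      intro he
      have he' : YY.p a σ t = YY.p a' σ' t' := he
      injection he' with e1 e2 e3
      subst e3
      refine hk _ rfl ?_
      intro m
      simp
    | _ => exact ⟨∅, countable_empty, fun t ht hk he => by cases he⟩
  · intro t _
    cases w with
    | p a' σ' t' =>
      refine ⟨a'.length + 1, fun a σ ht hj => ?_⟩
      intro he
      have he' : YY.p a σ t = YY.p a' σ' t' := he
      injection he' with e1 e2 e3
      subst e1
      omega
    | _ => exact ⟨0, fun a σ ht hj he => by cases he⟩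

theorem t2_XX : T2Space (XX H) := by
  classical
  have hcone : ∀ s : Nd H, IsOpen ({x : XX H | Ext s x}ᶜ) := by
    intro s
    rw [isOpen_XX]
    intro a ha
    refine ⟨{h | ∃ g, s[a.length]? = some g ∧ g.1 = h}, ?_, ?_⟩
    · cases hs : s[a.length]? with
      | none => simp
      | some g =>
        refine (countable_singleton g.1).mono ?_
        rintro h ⟨g', hg', rfl⟩
        simp at hg'
        simp [hg']
    · intro h hh j x hx hsx
      apply ha
      have h1 := ext_append.1 hx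
      rcases Nat.lt_or_ge a.length s.length with hl | hl
      · exfalso
        apply hh
        refine ⟨(h, j), ?_, rfl⟩
        rw [hsx _ hl]; exact h1.2
      · exact Ext.of_le hsx h1.1 hl
  have hbr : ∀ t : Br H, IsOpen (({br t} : Set (XX H))ᶜ) := by
    intro t
    rw [isOpen_XX]
    intro a ha
    refine ⟨{(t a.length).1}, countable_singleton _, fun h hh j x hx he => ?_⟩
    have he' : x = br t := he
    subst he'
    have := (ext_append.1 hx).2
    simp only [XX.get, Option.some.injEq] at this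
    apply hh
    simp [this]
  refine ⟨fun x x' hne => ?_⟩
  have key : ∀ U : Set (XX H), IsOpen U → IsOpen Uᶜ → ((x ∈ U ∧ x' ∉ U) ∨ (x ∉ U ∧ x' ∈ U)) →
      ∃ u v : Set (XX H), IsOpen u ∧ IsOpen v ∧ x ∈ u ∧ x' ∈ v ∧ Disjoint u v := by
    rintro U h1 h2 (⟨h3, h4⟩ | ⟨h3, h4⟩)
    · exact ⟨U, Uᶜ, h1, h2, h3, h4, disjoint_compl_right⟩
    · exact ⟨Uᶜ, U, h2, h1, h3, h4, disjoint_compl_left⟩
  cases x with
  | br t => exact key _ (isOpen_br t) (hbr t) (Or.inl ⟨rfl, fun h => hne h.symm⟩)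
  | nd a =>
    cases x' with
    | br t => exact key _ (isOpen_br t) (hbr t) (Or.inr ⟨fun h => hne h, rfl⟩)
    | nd a' =>
      rcases le_total a.length a'.length with hl | hl
      · refine key _ (isOpen_cone_XX a') (hcone a') (Or.inr ⟨fun h => ?_, ext_self a'⟩)
        exact hne (by rw [Ext.antisymm h hl])
      · refine key _ (isOpen_cone_XX a) (hcone a) (Or.inl ⟨ext_self a, fun h => ?_⟩)
        exact hne (by rw [Ext.antisymm h hl])

end Pool.Agent.H866R2.CM
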