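import Pool.Agent.H866R2.CM.UpcXY

set_option autoImplicit false

/-!
# The product `X × Z` is not paracompact
-/

namespace Pool.Agent.H866R2.CM

open Set XX

variable {H : Type}

/-- a box around `(nd a, z)` missing all points `(br t, b t)` -/
theorem box (a : Nd H) (z : ZZ H) : ∃ (N : Set (XX H)) (P : Set (ZZ H)), IsOpen N ∧ IsOpen P ∧
    nd a ∈ N ∧ z ∈ P ∧ ∀ t : Br H, br t ∈ N → .b t ∉ P := by
  cases z with
  | v s h =>
    let k : ℕ := ((nd a).get s.length).elim 0 (fun g => g.2 + 1)
    let G : Set H := {h} ∪ {h' | ∃ g, s[a.length]? = some g ∧ g.1 = h'}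
    have hG : G.Countable := by
      refine (countable_singleton h).union ?_
      cases hs : s[a.length]? with
      | none => simp
      | some g =>
        refine (countable_singleton g.1).mono ?_
        rintro h' ⟨g', hg', rfl⟩
        simp at hg'
        simp [hg']
    refine ⟨_, {z : ZZ H | z = .v s h ∨ ∃ j ≥ k, ∃ w : YY H, z = ff w ∧ Ext (s ++ [(h, j)]) (loc w)},
      isOpen_N a G hG, ?_, Or.inl rfl, Or.inl rfl, ?_⟩
    · rw [isOpen_ZZ]
      have : ff ⁻¹' {z : ZZ H | z = .v s h ∨ ∃ j ≥ k, ∃ w : YY H, z = ff w ∧ Ext (s ++ [(h, j)]) (loc w)}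
          = {w : YY H | w = .v s h ∨ ∃ j ≥ k, Ext (s ++ [(h, j)]) (loc w)} := by
        ext w
        constructor
        · rintro (he | ⟨j, hj, w', he, hw'⟩)
          · rcases ff_eq (w' := .v s h) he with h1 | ⟨a', σ, σ', _, h2⟩
            · exact Or.inl h1
            · cases h2
          · rcases ff_eq he with h1 | ⟨a', σ, σ', h1, h2⟩
            · rw [h1]; exact Or.inr ⟨j, hj, hw'⟩
            · subst h1; subst h2
              exact Or.inr ⟨j, hj, hw'⟩
        · rintro (rfl | ⟨j, hj, hw⟩)
          · exact Or.inl rfl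
          · exact Or.inr ⟨j, hj, w, rfl, hw⟩
      rw [this]
      exact isOpen_Gv s h k
    · rintro t (he | ⟨h', hh', j', ht⟩) (he2 | ⟨j, hj, w, he2, hw⟩)
      · cases he
      · cases he
      · cases he2
      · have hw' : w = .b t := by
          rcases ff_eq (w := .b t) he2 with h1 | ⟨a', σ, σ', h1, h2⟩
          · exact h1.symm
          · cases h1
        subst hw'
        have h1 := ext_append.1 ht
        have h2 := ext_append.1 hw
        simp only [loc] at h2
        rcases lt_trichotomy a.length s.length with hl | hl | hl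
        · apply hh'
          refine Or.inr ⟨(h', j'), ?_, rfl⟩
          rw [h2.1 _ hl]; exact h1.2
        · apply hh'
          have h3 := h1.2
          rw [hl, h2.2] at h3
          simp only [Option.some.injEq, Prod.mk.injEq] at h3
          exact Or.inl h3.1.symm
        · have h3 : (nd a).get s.length = some (h, j) := by
            rw [← h2.2]; exact h1.1 _ hl
          simp only [k, h3] at hj
          simp at hj
  | z a' =>
    refine ⟨univ, {z | ∀ t, z ≠ .b t ∧ ∀ s h, z ≠ .v s h}, isOpen_univ, ?_, trivial, ?_, ?_⟩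
    · rw [isOpen_ZZ, isOpen_YY]
      refine ⟨?_, ?_, ?_⟩
      · intro s h hm
        exact absurd rfl ((hm (fun _ => (h, 0))).2 s h)
      · intro s σ _
        refine ⟨∅, countable_empty, fun t _ _ u => ⟨?_, ?_⟩⟩
        · intro he; cases he
        · intro _ _ he; cases he
      · intro t hm
        exact absurd rfl (hm t).1
    · intro t
      refine ⟨?_, ?_⟩
      · intro he; cases he
      · intro _ _ he; cases he
    · intro t _ hm
      exact (hm t).1 rfl
  | b u =>
    refine ⟨_, {z | (∀ t, z = .b t → t = u) ∧ ∀ s h, z ≠ .v s h},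
      isOpen_N a {(u a.length).1} (countable_singleton _), ?_, Or.inl rfl, ?_, ?_⟩
    · rw [isOpen_ZZ, isOpen_YY]
      refine ⟨?_, ?_, ?_⟩
      · intro s h hm
        exact absurd rfl (hm.2 s h)
      · intro s σ _
        refine ⟨∅, countable_empty, fun t _ _ => ⟨?_, ?_⟩⟩
        · intro _ he; cases he
        · intro _ _ he; cases he
      · intro t hm
        refine ⟨0, fun s σ _ _ => ⟨?_, ?_⟩⟩
        · intro _ he; cases he
        · intro _ _ he; cases he
    · refine ⟨fun t he => by cases he; rfl, fun _ _ he => by cases he⟩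
    · rintro t (he | ⟨h', hh', j', ht⟩) hm
      · cases he
      · have e1 := hm.1 t rfl
        subst e1
        have h1 := (ext_append.1 ht).2
        simp only [XX.get, Option.some.injEq] at h1
        apply hh'
        simp [h1]
  | p a' σ u =>
    refine ⟨univ, {.p a' σ u}, isOpen_univ, ?_, trivial, rfl, ?_⟩
    · rw [isOpen_ZZ, isOpen_YY]
      refine ⟨?_, ?_, ?_⟩
      · intro s h hm
        cases hm
      · intro s σ hm
        cases hm
      · intro t hm
        cases hm
    · intro t _ hm
      cases hm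

/-- the recursive construction of a branch -/
theorem exists_branch (σ : Nd H → H) (κ : Nd H → ℕ → Nd H → H → ℕ) :
    ∃ t : Br H, (∀ m, (t m).1 = σ (res t m)) ∧
      ∀ m i, t ∉ Lk (κ (res t m) i) := by
  classical
  -- next letter after a node `s`
  let nxt : Nd H → H × ℕ := fun s =>
    (σ s, ∑ m ∈ Finset.range (s.length + 1), ∑ i ∈ Finset.range (s.length + 1),
      κ (s.take m) i s (σ s))
  let g : ℕ → Nd H := fun n => Nat.rec [] (fun _ s => s ++ [nxt s]) n
  have hg : ∀ n, g (n + 1) = g n ++ [nxt (g n)] := fun n => rfl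
  let t : Br H := fun n => nxt (g n)
  have hres : ∀ n, res t n = g n := by
    intro n
    induction n with
    | zero => rfl
    | succ n ih => rw [res_succ, hg, ih]
  have hlen : ∀ n, (g n).length = n := by
    intro n; rw [← hres]; simp
  refine ⟨t, fun m => ?_, fun m i hL => ?_⟩
  · show (nxt (g m)).1 = _
    rw [hres]
  · obtain ⟨M, hM1, hM2⟩ : ∃ M, m ≤ M ∧ i ≤ M := ⟨max m i, le_max_left _ _, le_max_right _ _⟩
    have h1 := hL M
    rw [hres, hres] at h1
    have h2 : (g M).take m = g m := by
      rw [← hres, ← hres]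
      have h3 : Ext (res t M) (br t) := ext_res _ _
      have h4 := h3.tk_eq' (m := m) (by simpa using hM1)
      exact h4.symm
    have h5 : κ (g m) i (g M) (σ (g M)) ≤ (nxt (g M)).2 := by
      simp only [nxt]
      have h6 : κ (g m) i (g M) (σ (g M)) ≤
          ∑ i' ∈ Finset.range ((g M).length + 1), κ ((g M).take m) i' (g M) (σ (g M)) := by
        rw [h2]
        refine Finset.single_le_sum (f := fun i' => κ (g m) i' (g M) (σ (g M)))
          (fun _ _ => Nat.zero_le _) (Finset.mem_range.2 ?_)
        rw [hlen]; omega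
      refine h6.trans ?_
      refine Finset.single_le_sum (f := fun m' => ∑ i' ∈ Finset.range ((g M).length + 1),
            κ ((g M).take m') i' (g M) (σ (g M)))
          (fun _ _ => Nat.zero_le _) (Finset.mem_range.2 ?_)
      rw [hlen]; omega
    have h7 : (t M).1 = σ (g M) := rfl
    have h8 : (t M).2 = (nxt (g M)).2 := rfl
    rw [h7, h8] at h1
    omega

theorem not_paracompact_XZ [Uncountable H] : ¬ ParacompactSpace (XX H × ZZ H) := by
  classical
  intro hpara
  -- the open cover
  choose N P hN hP hNa hPz hNP using (fun (q : Nd H × ZZ H) => box q.1 q.2)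
  let U : (Nd H × ZZ H) ⊕ Br H → Set (XX H × ZZ H) := fun i => match i with
    | .inl q => N q ×ˢ P q
    | .inr t => {br t} ×ˢ univ
  have hU : ∀ i, IsOpen (U i) := by
    rintro (q | t)
    · exact (hN q).prod (hP q)
    · exact (isOpen_br t).prod isOpen_univ
  have hUc : ⋃ i, U i = univ := by
    rw [eq_univ_iff_forall]
    rintro ⟨x, z⟩
    rw [mem_iUnion]
    cases x with
    | nd a => exact ⟨.inl (a, z), hNa _, hPz _⟩
    | br t => exact ⟨.inr t, rfl, trivial⟩
  obtain ⟨β, V, hV, hVc, hVf, hVU⟩ := hpara.locallyFinite_refinement _ U hU hUc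
  -- the member containing `(br t, b t)`
  have h1 : ∀ t : Br H, ∃ i, (br t, ZZ.b t) ∈ V i := by
    intro t
    have : (br t, ZZ.b t) ∈ ⋃ i, V i := by rw [hVc]; trivial
    simpa using this
  choose i hi using h1
  have hiU : ∀ t, V (i t) ⊆ {br t} ×ˢ univ := by
    intro t
    obtain ⟨a, ha⟩ := hVU (i t)
    have hmem := ha (hi t)
    cases a with
    | inl q => exact absurd hmem.2 (hNP q t hmem.1)
    | inr t' =>
      have : br t = br t' := hmem.1
      injection this with e
      subst e
      exact ha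
  have hinj : Function.Injective i := by
    intro t t' he
    have h2 := hiU t' (he ▸ hi t)
    have : br t = br t' := h2.1
    injection this
  -- the numbers `n t`
  have h2 : ∀ t : Br H, ∃ n, ∀ a σ, t ∈ C a σ → n ≤ a.length → (br t, ZZ.p a σ t) ∈ V (i t) := by
    intro t
    have hopen : IsOpen {z : ZZ H | (br t, z) ∈ V (i t)} :=
      (hV (i t)).preimage (Continuous.prodMk_right (br t))
    exact (isOpen_YY.1 (isOpen_ZZ.1 hopen)).2.2 t (hi t)
  choose n hn using h2
  -- local finiteness at `(nd a, z a)`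
  have h3 : ∀ a : Nd H, ∃ (F : Set H) (O : Set (ZZ H)), F.Countable ∧ IsOpen O ∧ ZZ.z a ∈ O ∧
      ∀ t : Br H, Ext a (br t) → (t a.length).1 ∉ F → ∀ w ∈ O, (br t, w) ∉ V (i t) := by
    intro a
    obtain ⟨T, hT, hTf⟩ := hVf (nd a, ZZ.z a)
    obtain ⟨B, hB, O, hO, hBO⟩ := mem_nhds_prod_iff.1 hT
    obtain ⟨B', hB'B, hB', haB'⟩ := mem_nhds_iff.1 hB
    obtain ⟨O', hO'O, hO', haO'⟩ := mem_nhds_iff.1 hO
    obtain ⟨F, hF, hF2⟩ := isOpen_XX.1 hB' a haB'
    let S : Set (Br H) := i ⁻¹' {j | (V j ∩ T).Nonempty}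
    have hS : S.Finite := hTf.preimage (hinj.injOn)
    refine ⟨F ∪ (fun t : Br H => (t a.length).1) '' S, O', hF.union (hS.image _).countable, hO',
      haO', ?_⟩
    intro t ht hnt w hw hwV
    apply hnt
    right
    refine ⟨t, ?_, rfl⟩
    refine ⟨(br t, w), hwV, hBO ⟨hB'B ?_, hO'O hw⟩⟩
    refine hF2 (t a.length).1 (fun h => hnt (Or.inl h)) (t a.length).2 _ ?_
    rw [ext_append]
    exact ⟨ht, rfl⟩
  choose F O hF hO hzO hsep using h3
  -- the choice function
  have h4 : ∀ a : Nd H, ∃ h : H, h ∉ F a := by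
    intro a
    by_contra hcon
    push Not at hcon
    have : (univ : Set H).Countable := (hF a).mono fun h _ => hcon h
    exact not_countable_univ this
  choose σ hσ using h4
  have h5 : ∀ a : Nd H, ∃ κ : ℕ → Nd H → H → ℕ, ∀ t ∈ C a σ, (∀ j, t ∉ Lk (κ j)) →
      ZZ.p a σ t ∈ O a := by
    intro a
    obtain ⟨K, hK, hK2⟩ := (isOpen_YY.1 (isOpen_ZZ.1 (hO a))).2.1 a σ (hzO a)
    obtain ⟨κ, hκ⟩ := (hK.union (countable_singleton (fun _ _ => 0))).exists_eq_range
      ⟨_, Or.inr rfl⟩
    refine ⟨κ, fun t ht htk => hK2 t ht fun k hk => ?_⟩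
    have : k ∈ range κ := by rw [← hκ]; exact Or.inl hk
    obtain ⟨j, rfl⟩ := this
    exact htk j
  choose κ hκ using h5
  obtain ⟨t, ht1, ht2⟩ := exists_branch σ κ
  have htC : ∀ m, t ∈ C (res t m) σ := fun m => ⟨ext_res t m, fun m' _ => ht1 m'⟩
  have hlen : (res t (n t)).length = n t := length_res _ _
  refine hsep (res t (n t)) t (ext_res _ _) ?_ (ZZ.p (res t (n t)) σ t)
    (hκ _ t (htC _) (fun j => ht2 _ j)) (hn t _ σ (htC _) hlen.ge)
  rw [hlen, ht1]
  exact hσ _

end Pool.Agent.H866R2.CM
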