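import Pool.Agent.H866R2.CM.UpcY

set_option autoImplicit false

/-!
# The product `X × Y` is ultraparacompact
-/

namespace Pool.Agent.H866R2.CM

open Set XX

variable {H : Type}

theorem isOpen_Gv (s : Nd H) (h : H) (k : ℕ) :
    IsOpen {w : YY H | w = .v s h ∨ ∃ j ≥ k, Ext (s ++ [(h, j)]) (loc w)} := by
  rw [isOpen_YY]
  refine ⟨?_, ?_, ?_⟩
  · rintro a h' (he | ⟨j, hj, hm⟩)
    · injection he with e1 e2
      subst e1; subst e2
      exact ⟨k, fun j hj w hw => Or.inr ⟨j, hj, hw⟩⟩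
    · exact ⟨0, fun j' _ w hw => Or.inr ⟨j, hj, hm.trans (ext_append.1 hw).1⟩⟩
  · rintro a σ (he | ⟨j, hj, hm⟩)
    · cases he
    · exact ⟨∅, countable_empty, fun t _ _ => Or.inr ⟨j, hj, hm⟩⟩
  · rintro t (he | ⟨j, hj, hm⟩)
    · cases he
    · refine ⟨s.length + 1, fun a σ ht hl => Or.inr ⟨j, hj, ?_⟩⟩
      exact Ext.of_le hm ht.1 (by simpa using hl)

theorem isOpen_Ob (u : Br H) (n : ℕ) :
    IsOpen {w : YY H | w = .b u ∨ ∃ a σ, w = .p a σ u ∧ u ∈ C a σ ∧ n ≤ a.length} := by
  rw [isOpen_YY]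
  refine ⟨?_, ?_, ?_⟩
  · rintro a h' (he | ⟨a', σ, he, _⟩) <;> cases he
  · rintro a σ (he | ⟨a', σ, he, _⟩) <;> cases he
  · rintro t (he | ⟨a', σ, he, _⟩)
    · injection he with e1
      subst e1
      exact ⟨n, fun a σ ht hl => Or.inr ⟨a, σ, rfl, ht, hl⟩⟩
    · cases he

theorem isOpen_Oy (a : Nd H) (σ : Nd H → H) (K : Set (Nd H → H → ℕ)) (hK : K.Countable) :
    IsOpen {w : YY H | w = .y a σ ∨ ∃ t ∈ C a σ, (∀ k ∈ K, t ∉ Lk k) ∧ w = .p a σ t} := by
  rw [isOpen_YY]
  refine ⟨?_, ?_, ?_⟩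
  · rintro a h' (he | ⟨a', _, _, he⟩) <;> cases he
  · rintro a' σ' (he | ⟨a', _, _, he⟩)
    · injection he with e1 e2
      subst e1; subst e2
      exact ⟨K, hK, fun t ht htk => Or.inr ⟨t, ht, htk, rfl⟩⟩
    · cases he
  · rintro t (he | ⟨a', _, _, he⟩) <;> cases he

theorem isOpen_N (a : Nd H) (G : Set H) (hG : G.Countable) :
    IsOpen {x : XX H | x = nd a ∨ ∃ h ∉ G, ∃ j, Ext (a ++ [(h, j)]) x} := by
  rw [isOpen_XX]
  rintro a' (he | ⟨h, hh, j, hm⟩)
  · injection he with e1
    subst e1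
    exact ⟨G, hG, fun h hh j x hx => Or.inr ⟨h, hh, j, hx⟩⟩
  · exact ⟨∅, countable_empty, fun h' _ j' x hx => Or.inr ⟨h, hh, j, hm.trans (ext_append.1 hx).1⟩⟩

/-- the nodes on the branches of `C a σ` beyond `a` -/
def tree (a : Nd H) (σ : Nd H → H) : Set (Nd H) := {s | ∃ u ∈ C a σ, ∃ m, a.length ≤ m ∧ s = res u m}

theorem countable_tree (a : Nd H) (σ : Nd H → H) : (tree a σ).Countable := by
  let lev : ℕ → Set (Nd H) := fun n => Nat.rec {a} (fun _ T => ⋃ s ∈ T, range fun j : ℕ => s ++ [(σ s, j)]) n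
  have h0 : lev 0 = {a} := rfl
  have hs : ∀ n, lev (n + 1) = ⋃ s ∈ lev n, range fun j : ℕ => s ++ [(σ s, j)] := fun n => rfl
  have hc : ∀ n, (lev n).Countable := by
    intro n
    induction n with
    | zero => rw [h0]; exact countable_singleton a
    | succ n ih => rw [hs]; exact ih.biUnion fun s _ => countable_range _
  have hm : ∀ u ∈ C a σ, ∀ n, res u (a.length + n) ∈ lev n := by
    intro u hu n
    induction n with
    | zero =>
      rw [h0]
      exact ext_br.1 hu.1
    | succ n ih =>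
      rw [hs]
      simp only [mem_iUnion]
      refine ⟨_, ih, (u (a.length + n)).2, ?_⟩
      rw [show a.length + (n + 1) = (a.length + n) + 1 by ring, res_succ]
      simp only
      rw [← hu.2 (a.length + n) (by omega)]
  refine (countable_iUnion hc).mono ?_
  rintro s ⟨u, hu, m, hm', rfl⟩
  refine mem_iUnion.2 ⟨m - a.length, ?_⟩
  have := hm u hu (m - a.length)
  rwa [show a.length + (m - a.length) = m by omega] at this

theorem length_tk_of_get {x : XX H} {m : ℕ} {g : H × ℕ} (h : x.get m = some g) :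
    (x.tk m).length = m := by
  cases x with
  | nd a =>
    simp only [XX.get] at h
    have : m < a.length := by
      by_contra hc
      rw [List.getElem?_eq_none (by omega)] at h
      cases h
    simp [XX.tk, this.le]
  | br t => simp [XX.tk]

theorem eq_nd_of_get_none {x : XX H} {m : ℕ} (h : x.get m = none) : x = nd (x.tk m) := by
  cases x with
  | nd a =>
    simp only [XX.get] at h
    have : a.length ≤ m := by
      by_contra hc
      push Not at hc
      rw [List.getElem?_eq_getElem hc] at h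
      cases h
    simp [XX.tk, this]
  | br t => simp [XX.get] at h

/-- The core: the sets `R t` can be separated. -/
theorem core [Nonempty H] (F : Nd H → YY H → Set H) (hF : ∀ a y, (F a y).Countable)
    (r : Nd H → YY H → YY H) (hr : ∀ a, IsLocallyConstant (r a)) :
    ∃ Q : Br H → Set (YY H), (∀ t, IsClopen (Q t)) ∧
      (∀ t y, (∀ m, (t m).1 ∈ F (res t m) (r (res t m) y)) → y ∈ Q t) ∧
      ∀ a y, ∃ G : Set H, G.Countable ∧ ∃ O : Set (YY H), IsOpen O ∧ y ∈ O ∧
        ∀ t : Br H, Ext a (br t) → (t a.length).1 ∉ G → ∀ w ∈ O, w ∉ Q t := by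
  classical
  -- the closed sets `K t`
  let K : Br H → Set (YY H) := fun t => {y | ∀ m, (t m).1 ∈ F (res t m) (r (res t m) y)}
  have hK : ∀ t, IsClosed (K t) := by
    intro t
    have : K t = ⋂ m, {y | (t m).1 ∈ F (res t m) (r (res t m) y)} := by
      ext y; simp [K]
    rw [this]
    refine isClosed_iInter fun m => ?_
    refine ⟨?_⟩
    exact hr (res t m) {w | (t m).1 ∉ F (res t m) w}
  -- not in K
  have hnK : ∀ (t : Br H) (a : Nd H) (w : YY H), Ext a (br t) → (t a.length).1 ∉ F a (r a w) →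
      w ∉ K t := by
    intro t a w ha hn hw
    have := hw a.length
    rw [ext_br.1 ha] at this
    exact hn this
  -- the numbers kk
  have h1 : ∀ a s h, ∃ k, ∀ j ≥ k, ∀ w, Ext (s ++ [(h, j)]) (loc w) → r a w = r a (.v s h) := by
    intro a s h
    exact (isOpen_YY.1 (hr a {w | w = r a (.v s h)})).1 s h rfl
  choose kk hkk using h1
  let GG : Nd H → XX H → Set H := fun a x => ⋃ i : ℕ, F a (r a (.v (x.tk i) (lett x i)))
  have hGG : ∀ a x, (GG a x).Countable := fun a x => countable_iUnion fun i => hF _ _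
  have factA : ∀ (t : Br H) (a s : Nd H) (h : H), Ext a (br t) →
      (t a.length).1 ∉ F a (r a (.v s h)) →
      ∀ w, (w = .v s h ∨ ∃ j ≥ kk a s h, Ext (s ++ [(h, j)]) (loc w)) → w ∉ K t := by
    rintro t a s h ha hn w (rfl | ⟨j, hj, hw⟩)
    · exact hnK t a _ ha hn
    · refine hnK t a w ha ?_
      rw [hkk a s h j hj w hw]; exact hn
  have factB : ∀ (t : Br H) (a : Nd H) (x : XX H), Ext a (br t) → (t a.length).1 ∉ GG a x →
      ∀ s h j, Ext (s ++ [(h, j)]) x → (t a.length).1 ∉ F a (r a (.v s h)) := by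
    intro t a x ha hn s h j hx hmem
    apply hn
    refine mem_iUnion.2 ⟨s.length, ?_⟩
    have hx' := ext_append.1 hx
    rw [hx'.1.tk_eq, lett_eq hx'.2]
    exact hmem
  -- the open sets `R t`
  let R : Br H → Set (YY H) := fun t => {w | w ∈ K t ∨
    (∃ s h j, .v s h ∈ K t ∧ Ext (s ++ [(h, j)]) (loc w)) ∨
    (∃ a σ u, w = .p a σ u ∧ u ∈ C a σ ∧ .y a σ ∈ K t ∧ ∀ m, u ∉ Lk (kk (res t m))) ∨
    (∃ a σ u, w = .p a σ u ∧ u ∈ C a σ ∧ .b u ∈ K t)}
  have hR : ∀ t, IsOpen (R t) := by
    intro t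
    rw [isOpen_YY]
    refine ⟨?_, ?_, ?_⟩
    · rintro a h (hw | ⟨s, h', j, h1, h2⟩ | ⟨_, _, _, he, _⟩ | ⟨_, _, _, he, _⟩)
      · exact ⟨0, fun j _ w hw' => Or.inr (Or.inl ⟨a, h, j, hw, hw'⟩)⟩
      · exact ⟨0, fun j' _ w hw' =>
          Or.inr (Or.inl ⟨s, h', j, h1, h2.trans (ext_append.1 hw').1⟩)⟩
      · cases he
      · cases he
    · rintro a σ (hw | ⟨s, h', j, h1, h2⟩ | ⟨_, _, _, he, _⟩ | ⟨_, _, _, he, _⟩)
      · refine ⟨range fun m => kk (res t m), countable_range _, fun u hu huk => ?_⟩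
        exact Or.inr (Or.inr (Or.inl ⟨a, σ, u, rfl, hu, hw, fun m => huk _ ⟨m, rfl⟩⟩))
      · exact ⟨∅, countable_empty, fun u _ _ => Or.inr (Or.inl ⟨s, h', j, h1, h2⟩)⟩
      · cases he
      · cases he
    · rintro u (hw | ⟨s, h', j, h1, h2⟩ | ⟨_, _, _, he, _⟩ | ⟨_, _, _, he, _⟩)
      · exact ⟨0, fun a σ hu _ => Or.inr (Or.inr (Or.inr ⟨a, σ, u, rfl, hu, hw⟩))⟩
      · refine ⟨s.length + 1, fun a σ hu hl => Or.inr (Or.inl ⟨s, h', j, h1, ?_⟩)⟩
        exact Ext.of_le h2 hu.1 (by simpa using hl)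
      · cases he
      · cases he
  have hQ : ∀ t, ∃ Q, IsClopen Q ∧ K t ⊆ Q ∧ Q ⊆ R t := fun t =>
    upc_YY.clopen (K t) (R t) (hK t) (hR t) (fun w hw => Or.inl hw)
  choose Q hQ1 hQ2 hQ3 using hQ
  refine ⟨Q, hQ1, fun t y hy => hQ2 t hy, ?_⟩
  suffices hs : ∀ a y, ∃ G : Set H, G.Countable ∧ ∃ O : Set (YY H), IsOpen O ∧ y ∈ O ∧
        ∀ t : Br H, Ext a (br t) → (t a.length).1 ∉ G → ∀ w ∈ O, w ∉ R t by
    intro a y
    obtain ⟨G, hG, O, hO, hy, h⟩ := hs a y
    exact ⟨G, hG, O, hO, hy, fun t ht hn w hw hq => h t ht hn w hw (hQ3 t hq)⟩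
  intro a' y
  cases y with
  | v s h =>
    refine ⟨F a' (r a' (.v s h)) ∪ GG a' (nd s), (hF _ _).union (hGG _ _), _,
      isOpen_Gv s h (kk a' s h), Or.inl rfl, ?_⟩
    intro t ht hn w hw hwR
    have hn1 : (t a'.length).1 ∉ F a' (r a' (.v s h)) := fun h' => hn (Or.inl h')
    have hn2 : (t a'.length).1 ∉ GG a' (nd s) := fun h' => hn (Or.inr h')
    have hA := factA t a' s h ht hn1
    rcases hwR with hwK | ⟨s', h', j', h1, h2⟩ | ⟨a, σ, u, rfl, hu, h1, _⟩ | ⟨a, σ, u, rfl, hu, h1⟩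
    · exact hA w hw hwK
    · rcases hw with rfl | ⟨j, hj, hw⟩
      · exact factA t a' s' h' ht (factB t a' _ ht hn2 s' h' j' h2) _ (Or.inl rfl) h1
      · rcases lt_trichotomy s'.length s.length with hl | hl | hl
        · have h3 : Ext (s' ++ [(h', j')]) (nd s) :=
            Ext.of_le h2 (ext_append.1 hw).1 (by simpa using hl)
          exact factA t a' s' h' ht (factB t a' _ ht hn2 s' h' j' h3) _ (Or.inl rfl) h1
        · have e1 : s' = s :=
            Ext.antisymm (Ext.of_le (ext_append.1 h2).1 (ext_append.1 hw).1 hl.le) hl.ge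
          subst e1
          have e2 := (ext_append.1 h2).2
          rw [(ext_append.1 hw).2] at e2
          simp only [Option.some.injEq, Prod.mk.injEq] at e2
          obtain ⟨rfl, rfl⟩ := e2
          exact hA _ (Or.inl rfl) h1
        · have h3 : Ext (s ++ [(h, j)]) (nd s') :=
            Ext.of_le hw (ext_append.1 h2).1 (by simpa using hl)
          exact hA (.v s' h') (Or.inr ⟨j, hj, h3⟩) h1
    · rcases hw with he | ⟨j, hj, hw⟩
      · cases he
      · exact hA (.y a σ) (Or.inr ⟨j, hj, hw⟩) h1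
    · rcases hw with he | ⟨j, hj, hw⟩
      · cases he
      · exact hA (.b u) (Or.inr ⟨j, hj, Ext.trans hw hu.1⟩) h1
  | b u =>
    obtain ⟨n1, hn1⟩ := (isOpen_YY.1 (hr a' {w | w = r a' (.b u)})).2.2 u rfl
    have hex : ∃ n, n1 ≤ n ∧ (u ∈ Lk (kk a') ∨ ∃ m, m < n ∧ bad (kk a') (br u) m) := by
      by_cases hu : u ∈ Lk (kk a')
      · exact ⟨n1, le_rfl, Or.inl hu⟩
      · rw [mem_Lk_iff] at hu
        push Not at hu
        obtain ⟨m, hm⟩ := hu
        exact ⟨max n1 (m + 1), le_max_left _ _, Or.inr ⟨m, by omega, hm⟩⟩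
    obtain ⟨n, hn, hnu⟩ := hex
    refine ⟨F a' (r a' (.b u)) ∪ GG a' (br u), (hF _ _).union (hGG _ _), _,
      isOpen_Ob u n, Or.inl rfl, ?_⟩
    intro t ht hnt w hw hwR
    have hn1' : (t a'.length).1 ∉ F a' (r a' (.b u)) := fun h' => hnt (Or.inl h')
    have hn2 : (t a'.length).1 ∉ GG a' (br u) := fun h' => hnt (Or.inr h')
    have hwK' : ∀ w, (w = .b u ∨ ∃ a σ, w = .p a σ u ∧ u ∈ C a σ ∧ n ≤ a.length) → w ∉ K t := by
      rintro w (rfl | ⟨a, σ, rfl, h1, h2⟩)
      · exact hnK t a' _ ht hn1'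
      · refine hnK t a' _ ht ?_
        rw [show r a' (.p a σ u) = r a' (.b u) from hn1 a σ h1 (hn.trans h2)]
        exact hn1'
    rcases hwR with hwK | ⟨s', h', j', h1, h2⟩ | ⟨a, σ, u', rfl, hu, h1, h3⟩ | ⟨a, σ, u', rfl, hu, h1⟩
    · exact hwK' w hw hwK
    · have h3 : Ext (s' ++ [(h', j')]) (br u) := by
        rcases hw with rfl | ⟨a, σ, rfl, h3, h4⟩
        · exact h2
        · exact Ext.trans h2 h3.1
      exact factA t a' s' h' ht (factB t a' _ ht hn2 s' h' j' h3) _ (Or.inl rfl) h1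
    · rcases hw with he | ⟨a2, σ2, he, h4, h5⟩
      · cases he
      · injection he with e1 e2 e3
        subst e1; subst e2; subst e3
        have h6 : u' ∉ Lk (kk a') := by
          have := h3 a'.length
          rwa [ext_br.1 ht] at this
        rcases hnu with hnu | ⟨m, hm, ⟨g, hg, hg2⟩⟩
        · exact h6 hnu
        · have h7 : Ext (res u' m ++ [(g.1, g.2)]) (br u') := by
            rw [ext_append]
            refine ⟨ext_res _ _, ?_⟩
            simpa using hg
          have h8 : Ext (res u' m ++ [(g.1, g.2)]) (nd a) :=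
            Ext.of_le h7 h4.1 (by simp; omega)
          exact factA t a' (res u' m) g.1 ht (factB t a' _ ht hn2 _ _ g.2 h7) (.y a σ)
            (Or.inr ⟨g.2, hg2, h8⟩) h1
    · rcases hw with he | ⟨a2, σ2, he, h4, h5⟩
      · cases he
      · injection he with e1 e2 e3
        subst e1; subst e2; subst e3
        exact hwK' _ (Or.inl rfl) h1
  | y a σ =>
    obtain ⟨K1, hK1, hK1'⟩ := (isOpen_YY.1 (hr a' {w | w = r a' (.y a σ)})).2.1 a σ rfl
    refine ⟨F a' (r a' (.y a σ)) ∪ GG a' (nd a) ∪ ⋃ s ∈ tree a σ, F a' (r a' (.v s (σ s))),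
      ((hF _ _).union (hGG _ _)).union ((countable_tree a σ).biUnion fun s _ => hF _ _), _,
      isOpen_Oy a σ (K1 ∪ {kk a'}) (hK1.union (countable_singleton _)), Or.inl rfl, ?_⟩
    intro t ht hnt w hw hwR
    have hn1' : (t a'.length).1 ∉ F a' (r a' (.y a σ)) := fun h' => hnt (Or.inl (Or.inl h'))
    have hn2 : (t a'.length).1 ∉ GG a' (nd a) := fun h' => hnt (Or.inl (Or.inr h'))
    have hn3 : ∀ s ∈ tree a σ, (t a'.length).1 ∉ F a' (r a' (.v s (σ s))) := by
      intro s hs h'
      apply hnt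
      refine Or.inr ?_
      simp only [mem_iUnion]
      exact ⟨s, hs, h'⟩
    have hwK' : ∀ w, (w = .y a σ ∨ ∃ t ∈ C a σ, (∀ k ∈ K1 ∪ {kk a'}, t ∉ Lk k) ∧ w = .p a σ t) →
        w ∉ K t := by
      rintro w (rfl | ⟨u, h1, h2, rfl⟩)
      · exact hnK t a' _ ht hn1'
      · refine hnK t a' _ ht ?_
        rw [show r a' (.p a σ u) = r a' (.y a σ) from hK1' u h1 (fun k hk => h2 k (Or.inl hk))]
        exact hn1'
    rcases hwR with hwK | ⟨s', h', j', h1, h2⟩ | ⟨a2, σ2, u', rfl, hu, h1, h3⟩ |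
      ⟨a2, σ2, u', rfl, hu, h1⟩
    · exact hwK' w hw hwK
    · have h3 : Ext (s' ++ [(h', j')]) (nd a) := by
        rcases hw with rfl | ⟨u, _, _, rfl⟩
        · exact h2
        · exact h2
      exact factA t a' s' h' ht (factB t a' _ ht hn2 s' h' j' h3) _ (Or.inl rfl) h1
    · rcases hw with he | ⟨u, _, _, he⟩
      · cases he
      · injection he with e1 e2 e3
        subst e1; subst e2; subst e3
        exact hwK' _ (Or.inl rfl) h1
    · rcases hw with he | ⟨u, _, h4, he⟩
      · cases he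
      · injection he with e1 e2 e3
        subst e1; subst e2; subst e3
        have h6 : u' ∉ Lk (kk a') := h4 _ (Or.inr rfl)
        rw [mem_Lk_iff] at h6
        push Not at h6
        obtain ⟨m, ⟨g, hg, hg2⟩⟩ := h6
        have h7 : Ext (res u' m ++ [(g.1, g.2)]) (br u') := by
          rw [ext_append]
          refine ⟨ext_res _ _, ?_⟩
          simpa using hg
        have h9 : (t a'.length).1 ∉ F a' (r a' (.v (res u' m) g.1)) := by
          rcases Nat.lt_or_ge m a2.length with hl | hl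
          · have h8 : Ext (res u' m ++ [(g.1, g.2)]) (nd a2) :=
              Ext.of_le h7 hu.1 (by simp; omega)
            exact factB t a' _ ht hn2 _ _ g.2 h8
          · have hg' : u' m = g := by simpa [XX.get] using hg
            rw [← hg', hu.2 m hl]
            exact hn3 _ ⟨u', hu, m, hl, rfl⟩
        exact factA t a' (res u' m) g.1 ht h9 (.b u') (Or.inr ⟨g.2, hg2, h7⟩) h1
  | p a σ u =>
    refine ⟨F a' (r a' (.p a σ u)) ∪ F a' (r a' (.y a σ)) ∪ F a' (r a' (.b u)) ∪ GG a' (nd a),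
      (((hF _ _).union (hF _ _)).union (hF _ _)).union (hGG _ _), {.p a σ u}, isOpen_p a σ u, rfl, ?_⟩
    rintro t ht hnt w rfl hwR
    have hn1 : (t a'.length).1 ∉ F a' (r a' (.p a σ u)) := fun h' => hnt (Or.inl (Or.inl (Or.inl h')))
    have hn2 : (t a'.length).1 ∉ F a' (r a' (.y a σ)) := fun h' => hnt (Or.inl (Or.inl (Or.inr h')))
    have hn3 : (t a'.length).1 ∉ F a' (r a' (.b u)) := fun h' => hnt (Or.inl (Or.inr h'))
    have hn4 : (t a'.length).1 ∉ GG a' (nd a) := fun h' => hnt (Or.inr h')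
    rcases hwR with hwK | ⟨s', h', j', h1, h2⟩ | ⟨a2, σ2, u', he, hu, h1, h3⟩ |
      ⟨a2, σ2, u', he, hu, h1⟩
    · exact hnK t a' _ ht hn1 hwK
    · exact factA t a' s' h' ht (factB t a' _ ht hn4 s' h' j' h2) _ (Or.inl rfl) h1
    · injection he with e1 e2 e3
      subst e1; subst e2; subst e3
      exact hnK t a' _ ht hn2 h1
    · injection he with e1 e2 e3
      subst e1; subst e2; subst e3
      exact hnK t a' _ ht hn3 h1

/-- the place `m` is good for `(x, y)` -/
def Hit (F : Nd H → YY H → Set H) (r : Nd H → YY H → YY H) (x : XX H) (y : YY H) (m : ℕ) : Prop :=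
  ∀ g, x.get m = some g → g.1 ∉ F (x.tk m) (r (x.tk m) y)

/-- `m` is the first good place for `(x, y)` -/
def FHit (F : Nd H → YY H → Set H) (r : Nd H → YY H → YY H) (x : XX H) (y : YY H) (m : ℕ) : Prop :=
  Hit F r x y m ∧ ∀ i < m, ¬ Hit F r x y i

theorem fhit_unique {F : Nd H → YY H → Set H} {r : Nd H → YY H → YY H} {x : XX H} {y : YY H}
    {m m' : ℕ} (h : FHit F r x y m) (h' : FHit F r x y m') : m = m' := by
  rcases lt_trichotomy m m' with hl | hl | hl
  · exact absurd h.1 (h'.2 _ hl)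
  · exact hl
  · exact absurd h'.1 (h.2 _ hl)

theorem exists_fhit {F : Nd H → YY H → Set H} {r : Nd H → YY H → YY H} {x : XX H} {y : YY H}
    (h : ∃ m, Hit F r x y m) : ∃ m, FHit F r x y m := by
  classical
  exact ⟨Nat.find h, Nat.find_spec h, fun i hi => Nat.find_min h hi⟩

theorem upc_XY [Nonempty H] : UPC (XX H × YY H) := by
  classical
  intro c hc
  have h1 : ∀ (a : Nd H) (y : YY H), ∃ F : Set H, F.Countable ∧ ∃ O : Set (YY H), IsOpen O ∧ y ∈ O ∧
      (∀ y' ∈ O, (nd a, y') ∈ c (nd a, y)) ∧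
      ∀ h ∉ F, ∀ j x, Ext (a ++ [(h, j)]) x → ∀ y' ∈ O, (x, y') ∈ c (nd a, y) := by
    intro a y
    obtain ⟨U, V, hU, hV, haU, hyV, hUV⟩ := isOpen_prod_iff.1 (hc (nd a, y)).1 _ _ (hc (nd a, y)).2
    obtain ⟨F, hF, hF2⟩ := isOpen_XX.1 hU a haU
    exact ⟨F, hF, V, hV, hyV, fun y' hy' => hUV ⟨haU, hy'⟩,
      fun h hh j x hx y' hy' => hUV ⟨hF2 h hh j x hx, hy'⟩⟩
  choose F hF O hO hyO hO1 hO2 using h1
  have h2 : ∀ a : Nd H, ∃ r : YY H → YY H, IsLocallyConstant r ∧ ∀ y, y ∈ O a (r y) :=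
    fun a => upc_YY (O a) (fun y => ⟨hO a y, hyO a y⟩)
  choose r hr hr2 using h2
  obtain ⟨Q, hQ1, hQ2, hQ3⟩ := core F hF r hr
  have h3 : ∀ t : Br H, ∃ rt : YY H → YY H, IsLocallyConstant rt ∧
      ∀ y, (br t, y) ∈ c (br t, rt y) := by
    intro t
    refine upc_YY (fun y => {y' | (br t, y') ∈ c (br t, y)}) (fun y => ⟨?_, (hc _).2⟩)
    exact (hc (br t, y)).1.preimage (Continuous.prodMk_right (br t))
  choose rt hrt hrt2 using h3
  let W : XX H → YY H → XX H × YY H := fun x y =>
    if h : ∃ m, FHit F r x y m then (nd (x.tk h.choose), r (x.tk h.choose) y) else (x, y)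
  have hW : ∀ x y m, FHit F r x y m → W x y = (nd (x.tk m), r (x.tk m) y) := by
    intro x y m hm
    have h : ∃ m, FHit F r x y m := ⟨m, hm⟩
    simp only [W]
    rw [dif_pos h, fhit_unique h.choose_spec hm]
  have hWc : ∀ x y m, FHit F r x y m → (x, y) ∈ c (W x y) := by
    intro x y m hm
    rw [hW x y m hm]
    cases hg : x.get m with
    | none =>
      have := eq_nd_of_get_none hg
      have h5 := hO1 (x.tk m) (r (x.tk m) y) y (hr2 (x.tk m) y)
      rwa [← this] at h5 ⊢
    | some g =>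
      refine hO2 (x.tk m) (r (x.tk m) y) g.1 (hm.1 g hg) g.2 x ?_ y (hr2 (x.tk m) y)
      rw [ext_append]
      refine ⟨ext_tk _ _, ?_⟩
      rw [length_tk_of_get hg]; exact hg
  let ρ : XX H × YY H → XX H × YY H := fun p => match p with
    | (.nd a, y) => W (nd a) y
    | (.br t, y) => if y ∈ Q t then (br t, rt t y) else W (br t) y
  have hbr : ∀ t y, y ∉ Q t → ∃ m, FHit F r (br t) y m := by
    intro t y hy
    apply exists_fhit
    by_contra hcon
    push Not at hcon
    apply hy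
    apply hQ2 t y
    intro m
    have := hcon m
    unfold Hit at this
    push Not at this
    obtain ⟨g, hg, hg2⟩ := this
    have hg' : t m = g := by simpa [XX.get] using hg
    rw [← hg'] at hg2
    exact hg2
  have hnd : ∀ a y, Hit F r (nd a) y a.length := by
    intro a y g hg
    simp [XX.get] at hg
  refine ⟨ρ, ?_, ?_⟩
  · rw [IsLocallyConstant.iff_exists_open]
    rintro ⟨x, y⟩
    cases x with
    | br t =>
      by_cases hy : y ∈ Q t
      · refine ⟨{br t} ×ˢ (Q t ∩ {y' | rt t y' = rt t y}),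
          (isOpen_br t).prod ((hQ1 t).isOpen.inter (hrt t {w | w = rt t y})), ⟨rfl, hy, rfl⟩, ?_⟩
        rintro ⟨x', y'⟩ ⟨hx', hy', hy''⟩
        have hx'' : x' = br t := hx'
        subst hx''
        simp only [ρ]
        rw [if_pos hy, if_pos hy', show rt t y' = rt t y from hy'']
      · obtain ⟨m, hm⟩ := hbr t y hy
        refine ⟨{br t} ×ˢ ((Q t)ᶜ ∩ ⋂ i ∈ Finset.range (m + 1), {y' | r (res t i) y' = r (res t i) y}),
          (isOpen_br t).prod ((hQ1 t).isClosed.isOpen_compl.inter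
            (isOpen_biInter_finset fun i _ => hr (res t i) {w | w = r (res t i) y})), ⟨rfl, hy, ?_⟩, ?_⟩
        · simp
        · rintro ⟨x', y'⟩ ⟨hx', hy', hy''⟩
          have hx'' : x' = br t := hx'
          subst hx''
          simp only [ρ]
          have hy3 : ∀ i ≤ m, r (res t i) y' = r (res t i) y := by
            intro i hi
            have := mem_iInter₂.1 hy'' i (Finset.mem_range.2 (by omega))
            exact this
          have hi : ∀ i ≤ m, (Hit F r (br t) y' i ↔ Hit F r (br t) y i) := by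
            intro i hi
            unfold Hit
            rw [show (br t).tk i = res t i from rfl, hy3 i hi]
          have hm' : FHit F r (br t) y' m :=
            ⟨(hi m le_rfl).2 hm.1, fun i hlt h => hm.2 i hlt ((hi i hlt.le).1 h)⟩
          rw [if_neg hy, if_neg (show y' ∉ Q t from hy'), hW _ _ _ hm, hW _ _ _ hm',
            show (br t).tk m = res t m from rfl, hy3 m le_rfl]
    | nd a =>
      obtain ⟨G, hG, O', hO', hyO', hsep⟩ := hQ3 a y
      obtain ⟨m, hm⟩ := exists_fhit ⟨a.length, hnd a y⟩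
      have hma : m ≤ a.length := by
        by_contra hcon
        exact hm.2 a.length (by omega) (hnd a y)
      refine ⟨{x : XX H | x = nd a ∨ ∃ h ∉ G ∪ F a (r a y), ∃ j, Ext (a ++ [(h, j)]) x} ×ˢ
        (O' ∩ ⋂ i ∈ Finset.range (a.length + 1),
          {y' | r ((nd a).tk i) y' = r ((nd a).tk i) y}),
        (isOpen_N a _ (hG.union (hF _ _))).prod (hO'.inter
          (isOpen_biInter_finset fun i _ => hr ((nd a).tk i) {w | w = r ((nd a).tk i) y})),
        ⟨Or.inl rfl, hyO', by simp⟩, ?_⟩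
      rintro ⟨x', y'⟩ ⟨hx', hy', hy''⟩
      have hy3 : ∀ i ≤ a.length, r ((nd a).tk i) y' = r ((nd a).tk i) y := by
        intro i hi
        have := mem_iInter₂.1 hy'' i (Finset.mem_range.2 (by omega))
        exact this
      have hax : Ext a x' := by
        rcases hx' with h | ⟨h, _, j, hx'⟩
        · have h' : x' = nd a := h
          rw [h']; exact ext_self a
        · exact (ext_append.1 hx').1
      -- hits below `a.length`
      have hi : ∀ i < a.length, (Hit F r x' y' i ↔ Hit F r (nd a) y i) := by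
        intro i hi
        unfold Hit
        rw [hax.get_eq hi, hax.tk_eq' hi.le, hy3 i hi.le]
      have htka : (nd a).tk a.length = a := by simp [XX.tk]
      have hia : Hit F r x' y' a.length := by
        intro g hg
        rw [hax.tk_eq]
        have e1 := hy3 a.length le_rfl
        rw [htka] at e1
        rw [e1]
        rcases hx' with h | ⟨h, hh, j, hx'⟩
        · have h' : x' = nd a := h
          rw [h'] at hg
          simp [XX.get] at hg
        · have := (ext_append.1 hx').2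
          rw [this] at hg
          simp only [Option.some.injEq] at hg
          subst hg
          exact fun h' => hh (Or.inr h')
      have hm' : FHit F r x' y' m := by
        refine ⟨?_, fun i hlt h => ?_⟩
        · rcases Nat.lt_or_ge m a.length with hl | hl
          · exact (hi m hl).2 hm.1
          · rw [show m = a.length by omega]; exact hia
        · exact hm.2 i hlt ((hi i (by omega)).1 h)
      have hWW : W x' y' = W (nd a) y := by
        rw [hW _ _ _ hm, hW _ _ _ hm', hax.tk_eq' hma, hy3 m hma]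
      cases x' with
      | nd a2 => exact hWW
      | br t =>
        have hyQ : y' ∉ Q t := by
          refine hsep t hax ?_ y' hy'
          rcases hx' with h | ⟨h, hh, j, hx'⟩
          · cases h
          · have := (ext_append.1 hx').2
            simp only [XX.get, Option.some.injEq] at this
            rw [this]
            exact fun h' => hh (Or.inl h')
        simp only [ρ]
        rw [if_neg hyQ]; exact hWW
  · rintro ⟨x, y⟩
    cases x with
    | nd a =>
      obtain ⟨m, hm⟩ := exists_fhit ⟨a.length, hnd a y⟩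
      exact hWc _ _ _ hm
    | br t =>
      simp only [ρ]
      split_ifs with hy
      · exact hrt2 t y
      · obtain ⟨m, hm⟩ := hbr t y hy
        exact hWc _ _ _ hm

end Pool.Agent.H866R2.CM
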