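import Pool.Agent.H866R2.CM.Basic

set_option autoImplicit false

/-!
# The space `Y` is ultraparacompact
-/

namespace Pool.Agent.H866R2.CM

open Set XX

variable {H : Type}

theorem Ext.get_eq {s : Nd H} {x : XX H} {m : ℕ} (h : Ext s x) (hm : m < s.length) :
    x.get m = (nd s).get m := (h m hm).symm

theorem Ext.tk_eq' {s : Nd H} {x : XX H} {m : ℕ} (h : Ext s x) (hm : m ≤ s.length) :
    x.tk m = (nd s).tk m := by
  have h1 : Ext ((nd s).tk m) x := (ext_tk (nd s) m).trans h
  have h2 : ((nd s).tk m).length = m := by simp [XX.tk, hm]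
  have := h1.tk_eq
  rw [h2] at this
  exact this

/-- letter `m` of `x` exceeds the bound `k` -/
def bad (k : Nd H → H → ℕ) (x : XX H) (m : ℕ) : Prop :=
  ∃ g, x.get m = some g ∧ k (x.tk m) g.1 ≤ g.2

/-- `m` is the first place where the bound `k` is exceeded -/
def IsExit (k : Nd H → H → ℕ) (x : XX H) (m : ℕ) : Prop := bad k x m ∧ ∀ i < m, ¬ bad k x i

theorem bad_iff {k : Nd H → H → ℕ} {s : Nd H} {x : XX H} {m : ℕ} (h : Ext s x)
    (hm : m < s.length) : bad k x m ↔ bad k (nd s) m := by
  unfold bad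
  rw [h.get_eq hm, h.tk_eq' hm.le]

theorem exit_iff {k : Nd H → H → ℕ} {s : Nd H} {x : XX H} {m : ℕ} (h : Ext s x)
    (hm : m < s.length) : IsExit k x m ↔ IsExit k (nd s) m := by
  unfold IsExit
  rw [bad_iff h hm]
  refine and_congr Iff.rfl (forall_congr' fun i => ?_)
  constructor
  · intro h1 h2; rw [← bad_iff h (h2.trans hm)]; exact h1 h2
  · intro h1 h2; rw [bad_iff h (h2.trans hm)]; exact h1 h2

theorem exit_unique {k : Nd H → H → ℕ} {x : XX H} {m m' : ℕ} (h : IsExit k x m)
    (h' : IsExit k x m') : m = m' := by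
  rcases lt_trichotomy m m' with hl | hl | hl
  · exact absurd h.1 (h'.2 _ hl)
  · exact hl
  · exact absurd h'.1 (h.2 _ hl)

theorem exists_exit {k : Nd H → H → ℕ} {x : XX H} (h : ∃ m, bad k x m) : ∃ m, IsExit k x m := by
  classical
  exact ⟨Nat.find h, Nat.find_spec h, fun i hi => Nat.find_min h hi⟩

theorem mem_Lk_iff {k : Nd H → H → ℕ} {t : Br H} : t ∈ Lk k ↔ ∀ m, ¬ bad k (br t) m := by
  unfold Lk bad
  simp only [mem_setOf_eq, XX.get, XX.tk, Option.some.injEq]
  refine forall_congr' fun m => ?_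
  constructor
  · rintro h ⟨g, rfl, hg⟩; omega
  · intro h; by_contra hc
    exact h ⟨t m, rfl, by omega⟩

theorem bad_lt {k : Nd H → H → ℕ} {s : Nd H} {m : ℕ} (h : bad k (nd s) m) : m < s.length := by
  obtain ⟨g, hg, _⟩ := h
  by_contra hc
  simp only [XX.get] at hg
  rw [List.getElem?_eq_none (by omega)] at hg
  cases hg

/-- the `H`-part of letter `m` -/
noncomputable def lett [Nonempty H] (x : XX H) (m : ℕ) : H :=
  (x.get m).elim (Classical.arbitrary H) Prod.fst

theorem lett_eq [Nonempty H] {x : XX H} {m : ℕ} {g : H × ℕ} (h : x.get m = some g) :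
    lett x m = g.1 := by simp [lett, h]

theorem upc_YY [Nonempty H] : UPC (YY H) := by
  classical
  intro c hc
  have h1 : ∀ a h, ∃ k, ∀ j ≥ k, ∀ w, Ext (a ++ [(h, j)]) (loc w) → w ∈ c (.v a h) :=
    fun a h => (isOpen_YY.1 (hc _).1).1 a h (hc _).2
  choose k hk using h1
  have h2 : ∀ a σ, ∃ K : Set (Nd H → H → ℕ), K.Countable ∧
      ∀ t ∈ C a σ, (∀ k ∈ K, t ∉ Lk k) → .p a σ t ∈ c (.y a σ) :=
    fun a σ => (isOpen_YY.1 (hc _).1).2.1 a σ (hc _).2
  choose K hK hK2 using h2
  have h3 : ∀ t : Br H, ∃ n, ∀ a σ, t ∈ C a σ → n ≤ a.length → .p a σ t ∈ c (.b t) :=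
    fun t => (isOpen_YY.1 (hc _).1).2.2 t (hc _).2
  choose n hn using h3
  let r0 : YY H → YY H := fun w => match w with
    | .p a σ t =>
      if t ∈ C a σ ∧ t ∉ Lk k ∧ ∀ k' ∈ K a σ, t ∉ Lk k' then .y a σ
      else if t ∈ C a σ ∧ t ∈ Lk k ∧ n t ≤ a.length then .b t else .p a σ t
    | w => w
  let r : YY H → YY H := fun w =>
    if h : ∃ m, IsExit k (loc w) m then .v ((loc w).tk h.choose) (lett (loc w) h.choose) else r0 w
  have hr1 : ∀ w m, IsExit k (loc w) m → r w = .v ((loc w).tk m) (lett (loc w) m) := by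
    intro w m hm
    have h : ∃ m, IsExit k (loc w) m := ⟨m, hm⟩
    simp only [r]
    rw [dif_pos h, exit_unique h.choose_spec hm]
  have hr2 : ∀ w, (¬ ∃ m, bad k (loc w) m) → r w = r0 w := by
    intro w hm
    have h : ¬ ∃ m, IsExit k (loc w) m := fun ⟨m, h⟩ => hm ⟨m, h.1⟩
    simp only [r]
    rw [dif_neg h]
  -- points in an extension of a node where the bound is exceeded
  have hr3 : ∀ (s : Nd H) m, IsExit k (nd s) m → ∀ w, Ext s (loc w) →
      r w = .v ((nd s).tk m) (lett (nd s) m) := by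
    intro s m hm w hw
    have hlt := bad_lt hm.1
    rw [hr1 w m ((exit_iff hw hlt).2 hm), hw.tk_eq' hlt.le]
    simp only [lett, hw.get_eq hlt]
  refine ⟨r, ?_, ?_⟩
  · intro s
    rw [isOpen_YY]
    refine ⟨?_, ?_, ?_⟩
    · intro a h hm
      by_cases hb : ∃ m, bad k (nd a) m
      · obtain ⟨m, hm2⟩ := exists_exit hb
        refine ⟨0, fun j _ w hw => ?_⟩
        have e1 := hr3 a m hm2 w (ext_append.1 hw).1
        have e2 := hr3 a m hm2 (.v a h) (ext_self a)
        show r w ∈ s
        rw [e1, ← e2]; exact hm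
      · refine ⟨k a h, fun j hj w hw => ?_⟩
        have e2 : r (.v a h) = .v a h := hr2 (.v a h) hb
        have hw' := ext_append.1 hw
        have e1 : r w = .v a h := by
          have hex : IsExit k (loc w) a.length := by
            refine ⟨⟨(h, j), hw'.2, ?_⟩, fun i hi => ?_⟩
            · rw [hw'.1.tk_eq]; exact hj
            · rw [bad_iff hw'.1 hi]
              exact fun hbi => hb ⟨i, hbi⟩
          rw [hr1 w _ hex, hw'.1.tk_eq, lett_eq hw'.2]
        show r w ∈ s
        rw [e1, ← e2]; exact hm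
    · intro a σ hm
      by_cases hb : ∃ m, bad k (nd a) m
      · obtain ⟨m, hm2⟩ := exists_exit hb
        refine ⟨∅, countable_empty, fun t _ _ => ?_⟩
        have e1 := hr3 a m hm2 (.p a σ t) (ext_self a)
        have e2 := hr3 a m hm2 (.y a σ) (ext_self a)
        show r _ ∈ s
        rw [e1, ← e2]; exact hm
      · refine ⟨K a σ ∪ {k}, (hK a σ).union (countable_singleton _), fun t ht htk => ?_⟩
        have e2 : r (.y a σ) = .y a σ := hr2 (.y a σ) hb
        have e1 : r (.p a σ t) = .y a σ := by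
          rw [hr2 (.p a σ t) hb]
          simp only [r0]
          rw [if_pos ⟨ht, htk k (Or.inr rfl), fun k' hk' => htk k' (Or.inl hk')⟩]
        show r _ ∈ s
        rw [e1, ← e2]; exact hm
    · intro t hm
      by_cases hb : ∃ m, bad k (br t) m
      · obtain ⟨m, hm2⟩ := exists_exit hb
        refine ⟨m + 1, fun a σ ht hj => ?_⟩
        have e0 : IsExit k (nd a) m := (exit_iff ht.1 (by omega)).1 hm2
        have e1 := hr3 a m e0 (.p a σ t) (ext_self a)
        have e2 := hr3 a m e0 (.b t) ht.1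
        show r _ ∈ s
        rw [e1, ← e2]; exact hm
      · refine ⟨n t, fun a σ ht hj => ?_⟩
        have e2 : r (.b t) = .b t := hr2 (.b t) hb
        have htL : t ∈ Lk k := mem_Lk_iff.2 (fun m h => hb ⟨m, h⟩)
        have hba : ¬ ∃ m, bad k (nd a) m := by
          rintro ⟨m, hm'⟩
          exact hb ⟨m, (bad_iff ht.1 (bad_lt hm')).2 hm'⟩
        have e1 : r (.p a σ t) = .b t := by
          rw [hr2 (.p a σ t) hba]
          simp only [r0]
          rw [if_neg (fun h => h.2.1 htL), if_pos ⟨ht, htL, hj⟩]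
        show r _ ∈ s
        rw [e1, ← e2]; exact hm
  · intro w
    by_cases hb : ∃ m, bad k (loc w) m
    · obtain ⟨m, hm⟩ := exists_exit hb
      rw [hr1 w m hm]
      obtain ⟨g, hg, hg2⟩ := hm.1
      rw [lett_eq hg]
      refine hk _ _ g.2 hg2 w ?_
      rw [ext_append]
      refine ⟨ext_tk _ _, ?_⟩
      have hl : ((loc w).tk m).length = m := by
        cases hw : loc w with
        | nd a =>
          rw [hw] at hm
          simp [XX.tk, (bad_lt hm.1).le]
        | br t => simp [XX.tk]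
      rw [hl]; exact hg
    · rw [hr2 w hb]
      cases w with
      | v a h => exact (hc _).2
      | y a σ => exact (hc _).2
      | b t => exact (hc _).2
      | p a σ t =>
        simp only [r0]
        split_ifs with h1 h2
        · exact hK2 a σ t h1.1 h1.2.2
        · exact hn t a σ h2.1 h2.2.2
        · exact (hc _).2

theorem t2_YY [Nonempty H] : T2Space (YY H) := upc_YY.t2 compl_open_YY

end Pool.Agent.H866R2.CM
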